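import Pool.Agent.Lib_MP_42f051_lc_s.SFinal

/-!
# EF-SharedObj(n, n - 2) is generically NP-hard
-/

namespace Pool.Agent.Results.MP_42f051_lc.EFSharedObjHard

open Pool.Agent.FairDiv Pool.Agent.FairDivS

/-- For every `n ≥ 3` the problem EF-SharedObj(n, n - 2) is generically NP-hard: an NP-hard language
maps to it by a polynomial time map `h` such that all inputs within the super-polynomial distance
`2 ^ t` of `h x`, `t` the number of entries of `h x`, have the answer of `x`. -/
theorem result (n : ℕ) (hn : 3 ≤ n) : GenericallyNPHard n (EFSharedObj n (n - 2)) :=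
  main n hn

end Pool.Agent.Results.MP_42f051_lc.EFSharedObjHard
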