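import Pool.Agent.Lib_MP_42f051_alg.Final
import Pool.Agent.Lib_MP_42f051_lc_p.GenHard
import Pool.Agent.Lib_MP_42f051_lc.Final
import Pool.Agent.Lib_MP_42f051_lc_s.SFinal

/-!
# The four problems of fair division with `n - 2` sharings or shared objects

For every `n ≥ 3`: PROP-SharedObj(n, n - 2) is decided in polynomial time, the three problems
PROP-Sharings(n, n - 2), EF-Sharings(n, n - 2) and EF-SharedObj(n, n - 2) are generically NP-hard, and
have no algorithm that runs generically in polynomial time unless P = NP.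
-/

namespace Pool.Agent.Results.MP_42f051_lc.FourProblems

open Pool.Agent.FairDiv Pool.Agent.FairDivS Pool.Agent.FairDivP

/-- The answer for the four problems, for every `n ≥ 3`. -/
theorem result (n : ℕ) (hn : 3 ≤ n) :
    ((∃ A : List ℕ → Bool, N68a2faeb.IsPolyTime A ∧
        ∀ y : List ℕ, A y = true ↔ PropSharedObj n (n - 2) y) ∧
      ∀ c, GenericallyPoly c n (PropSharedObj n (n - 2))) ∧
    (GenericallyNPHard n (PropSharings n (n - 2)) ∧ GenericallyNPHard n (EFSharings n (n - 2)) ∧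
      GenericallyNPHard n (EFSharedObj n (n - 2))) ∧
    (¬ N68a2faeb.NP ⊆ N68a2faeb.P → ∃ c₀, ∀ c, c₀ ≤ c →
      ¬ GenericallyPoly c n (PropSharings n (n - 2)) ∧
      ¬ GenericallyPoly c n (EFSharings n (n - 2)) ∧
      ¬ GenericallyPoly c n (EFSharedObj n (n - 2))) := by
  obtain ⟨h1, h2⟩ := Pool.Agent.FairDiv.main n hn
  have h3 := Pool.Agent.FairDivS.main n hn
  obtain ⟨A, hA, hA'⟩ := Pool.Agent.FairDivA.propSharedObj_polyTime n hn
  refine ⟨⟨⟨A, hA, hA'⟩, genericallyPoly_of_polyTime hA fun y _ => hA' y⟩, ⟨h1, h2, h3⟩, fun hP => ?_⟩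
  obtain ⟨c₁, hc₁⟩ := np_subset_p_of_generic h1
  obtain ⟨c₂, hc₂⟩ := np_subset_p_of_generic h2
  obtain ⟨c₃, hc₃⟩ := np_subset_p_of_generic h3
  exact ⟨max c₁ (max c₂ c₃), fun c hc => ⟨fun h => hP (hc₁ c (by omega) h),
    fun h => hP (hc₂ c (by omega) h), fun h => hP (hc₃ c (by omega) h)⟩⟩

end Pool.Agent.Results.MP_42f051_lc.FourProblems
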