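import Pool.Agent.Lib_MP_42f051_alg.Final
import Pool.Agent.Lib_MP_42f051_lc_p.GenPoly

/-!
# PROP-SharedObj(n, n - 2) is decided in polynomial time
-/

namespace Pool.Agent.Results.MP_42f051_lc.PropSharedObjPoly

open Pool.Agent.FairDiv Pool.Agent.FairDivS Pool.Agent.FairDivP

/-- For every `n ≥ 3` the problem PROP-SharedObj(n, n - 2) is decided by a function that is computable
in polynomial time; so it has, for every `c`, an algorithm that runs generically in polynomial time. -/
theorem result (n : ℕ) (hn : 3 ≤ n) :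
    (∃ A : List ℕ → Bool, N68a2faeb.IsPolyTime A ∧
        ∀ y : List ℕ, A y = true ↔ PropSharedObj n (n - 2) y) ∧
      ∀ c, GenericallyPoly c n (PropSharedObj n (n - 2)) := by
  obtain ⟨A, hA, hA'⟩ := Pool.Agent.FairDivA.propSharedObj_polyTime n hn
  exact ⟨⟨A, hA, hA'⟩, genericallyPoly_of_polyTime hA fun y _ => hA' y⟩

end Pool.Agent.Results.MP_42f051_lc.PropSharedObjPoly
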